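import Pool.Agent.Helper21.EM.Stmts

/-!
# Complements of stable subspaces (row CPL)

The Jacobson radical of the algebra generated by `L` is nilpotent, hence in the kernel of the trace
form, hence zero; so the algebra is semisimple, `K ^ n` is a semisimple module, and complements
exist.
-/

set_option autoImplicit false

open Matrix MT

namespace EM

namespace A91

/-- an algebra of matrices with non-degenerate trace form is semisimple -/
theorem cpl_semisimple {K : Type} [Field K] {n : ℕ} (B : Subalgebra K (Matrix (Fin n) (Fin n) K))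
    (hB : ∀ A ∈ B, (∀ C ∈ B, (A * C).trace = 0) → A = 0) : IsSemisimpleRing B := by
  haveI : IsArtinianRing B := IsArtinianRing.of_finite K B
  rw [IsArtinianRing.isSemisimpleRing_iff_jacobson, eq_bot_iff]
  intro a ha
  have hnil : IsNilpotent (Ideal.jacobson (⊥ : Ideal B)) := IsArtinianRing.isNilpotent_jacobson_bot
  rw [Ideal.jacobson_bot] at hnil
  obtain ⟨k, hk⟩ := hnil
  have h1 : ∀ x ∈ Ring.jacobson B, IsNilpotent x := by
    intro x hx
    refine ⟨k, ?_⟩
    have h2 := Ideal.pow_mem_pow hx k
    rw [hk] at h2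
    simpa using h2
  have h3 : (a : Matrix (Fin n) (Fin n) K) = 0 := by
    apply hB a a.2
    intro C hC
    have h4 : a * (⟨C, hC⟩ : B) ∈ Ring.jacobson B := Ideal.mul_mem_right _ _ ha
    obtain ⟨m, hm⟩ := h1 _ h4
    have h5 : IsNilpotent ((a : Matrix (Fin n) (Fin n) K) * C) := by
      refine ⟨m, ?_⟩
      have h6 := congrArg (fun x : B => (x : Matrix (Fin n) (Fin n) K)) hm
      simpa using h6
    exact (Matrix.isNilpotent_trace_of_isNilpotent h5).eq_zero
  rw [Ideal.mem_bot]
  exact Subtype.ext h3

/-- the subalgebra of the matrices which preserve a subspace -/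
def stab {K : Type} [Field K] {n : ℕ} (U : Submodule K (Fin n → K)) :
    Subalgebra K (Matrix (Fin n) (Fin n) K) where
  carrier := {A | ∀ v ∈ U, A.mulVec v ∈ U}
  mul_mem' := fun {A B} hA hB v hv => by
    rw [← Matrix.mulVec_mulVec]
    exact hA _ (hB _ hv)
  add_mem' := fun {A B} hA hB v hv => by
    rw [Matrix.add_mulVec]
    exact U.add_mem (hA _ hv) (hB _ hv)
  algebraMap_mem' := fun c v hv => by
    rw [Algebra.algebraMap_eq_smul_one, Matrix.smul_mulVec, Matrix.one_mulVec]
    exact U.smul_mem _ hv

/-- a subspace which is stable under `L` is stable under the algebra generated by `L` -/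
theorem stab_adjoin {K : Type} [Field K] {n : ℕ} (L : Submodule K (Matrix (Fin n) (Fin n) K))
    (U : Submodule K (Fin n → K)) (hU : ∀ A ∈ L, ∀ v ∈ U, A.mulVec v ∈ U) :
    ∀ A ∈ Algebra.adjoin K (L : Set (Matrix (Fin n) (Fin n) K)), ∀ v ∈ U, A.mulVec v ∈ U := by
  have h1 : Algebra.adjoin K (L : Set (Matrix (Fin n) (Fin n) K)) ≤ stab U :=
    Algebra.adjoin_le fun A hA v hv => hU A hA v hv
  intro A hA v hv
  exact h1 hA v hv

end A91

open A91 in
/-- CPL: complements of stable subspaces. -/
theorem st_CPL : ST_CPL := by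
  intro K _ n L hL U hU
  let B := Algebra.adjoin K (L : Set (Matrix (Fin n) (Fin n) K))
  haveI : IsSemisimpleRing B := cpl_semisimple B hL
  have hBU := stab_adjoin L U hU
  let φ : B →+* Module.End K (Fin n → K) :=
    ((Matrix.toLinAlgEquiv' (R := K) (n := Fin n)).toAlgHom.comp B.val).toRingHom
  letI : Module B (Fin n → K) := Module.compHom (Fin n → K) φ
  have hsm : ∀ (r : B) (v : Fin n → K), r • v = (r : Matrix (Fin n) (Fin n) K).mulVec v := by
    intro r v
    change φ r v = _
    rfl
  have hq : ∀ (c : K) (v : Fin n → K), (algebraMap K B c) • v = c • v := by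
    intro c v
    rw [hsm]
    change ((algebraMap K (Matrix (Fin n) (Fin n) K)) c).mulVec v = c • v
    rw [Algebra.algebraMap_eq_smul_one, Matrix.smul_mulVec, Matrix.one_mulVec]
  let UB : Submodule B (Fin n → K) :=
    { carrier := (U : Set (Fin n → K))
      add_mem' := fun hx hy => U.add_mem hx hy
      zero_mem' := U.zero_mem
      smul_mem' := fun r v hv => by
        change (r : Matrix (Fin n) (Fin n) K).mulVec v ∈ U
        exact hBU r r.2 v hv }
  haveI : IsSemisimpleModule B (Fin n → K) := inferInstance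
  obtain ⟨WB, hWB⟩ := exists_isCompl UB
  let W : Submodule K (Fin n → K) :=
    { carrier := (WB : Set (Fin n → K))
      add_mem' := fun hx hy => WB.add_mem hx hy
      zero_mem' := WB.zero_mem
      smul_mem' := fun c v hv => by
        rw [← hq]
        exact WB.smul_mem _ hv }
  have hW : ∀ v, v ∈ W ↔ v ∈ WB := fun v => Iff.rfl
  have hU' : ∀ v, v ∈ U ↔ v ∈ UB := fun v => Iff.rfl
  refine ⟨W, ?_, ?_, ?_⟩
  · intro A hA v hv
    exact WB.smul_mem (⟨A, Algebra.subset_adjoin hA⟩ : B) hv
  · rw [Submodule.disjoint_def]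
    intro v hv1 hv2
    exact (Submodule.disjoint_def.mp hWB.1) v hv1 hv2
  · rw [codisjoint_iff, eq_top_iff]
    intro v _
    have h1 : v ∈ UB ⊔ WB := by
      rw [codisjoint_iff.mp hWB.2]
      exact Submodule.mem_top
    obtain ⟨y, hy, z, hz, hyz⟩ := Submodule.mem_sup.mp h1
    exact Submodule.mem_sup.mpr ⟨y, hy, z, hz, hyz⟩

end EM
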