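import Pool.Agent.Helper21.EM.Stmts

/-!
# Dimensions for the orthogonal Lie algebras (row DIM)

In the frame `P`, multiplication by the form identifies the infinitesimal isometries of degree `x`
with the alternating matrices which vanish at the entries `(i, j)` with `s i + s j + x ≠ 0`.
-/

set_option autoImplicit false

open Matrix MT

namespace EM

namespace A91

section alt

variable {K : Type} [Field K] {r : ℕ}

/-- the alternating matrices which vanish outside `R` -/
def Alt (K : Type) [Field K] {r : ℕ} (R : Fin r → Fin r → Prop) :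
    Submodule K (Matrix (Fin r) (Fin r) K) where
  carrier := {Z | Z.transpose + Z = 0 ∧ ∀ i j, ¬ R i j → Z i j = 0}
  add_mem' := fun {A B} hA hB => ⟨by
    rw [Matrix.transpose_add, add_add_add_comm, hA.1, hB.1, add_zero], fun i j hR => by
    rw [Matrix.add_apply, hA.2 i j hR, hB.2 i j hR, add_zero]⟩
  zero_mem' := ⟨by rw [Matrix.transpose_zero, add_zero], fun _ _ _ => rfl⟩
  smul_mem' := fun c A hA => ⟨by
    rw [Matrix.transpose_smul, ← smul_add, hA.1, smul_zero], fun i j hR => by
    rw [Matrix.smul_apply, hA.2 i j hR, smul_zero]⟩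

open Classical in
/-- the projection to the alternating matrices which vanish outside `R` -/
noncomputable def altP (K : Type) [Field K] {r : ℕ} (R : Fin r → Fin r → Prop) :
    Matrix (Fin r) (Fin r) K →ₗ[K] Matrix (Fin r) (Fin r) K where
  toFun := fun Z => Matrix.of fun i j => if R i j then (1 / 2 : K) * (Z i j - Z j i) else 0
  map_add' := fun A B => by
    ext i j
    rw [Matrix.add_apply, Matrix.of_apply, Matrix.of_apply, Matrix.of_apply, Matrix.add_apply,
      Matrix.add_apply]
    split_ifs
    · ring
    · rw [add_zero]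
  map_smul' := fun c A => by
    ext i j
    rw [RingHom.id_apply, Matrix.smul_apply, Matrix.of_apply, Matrix.of_apply, Matrix.smul_apply,
      Matrix.smul_apply, smul_eq_mul, smul_eq_mul, smul_eq_mul]
    split_ifs
    · ring
    · rw [mul_zero]

open Classical in
/-- the dimension of the space of alternating matrices which vanish outside `R` -/
theorem finrank_Alt [CharZero K] (R : Fin r → Fin r → Prop) (hR : ∀ i j, R i j → R j i) :
    2 * Module.finrank K (Alt K R) =
      (Finset.univ.filter fun p : Fin r × Fin r => p.1 ≠ p.2 ∧ R p.1 p.2).card := by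
  have hap : ∀ (Z : Matrix (Fin r) (Fin r) K) (i j : Fin r), altP K R Z i j =
      if R i j then (1 / 2 : K) * (Z i j - Z j i) else 0 := fun Z i j => rfl
  have h1 : LinearMap.IsProj (Alt K R) (altP K R) := by
    constructor
    · intro Z
      refine ⟨?_, ?_⟩
      · ext i j
        rw [Matrix.add_apply, Matrix.transpose_apply, hap, hap, Matrix.zero_apply]
        by_cases h : R i j
        · rw [if_pos h, if_pos (hR i j h)]
          ring
        · rw [if_neg h, if_neg (fun h' => h (hR j i h')), add_zero]
      · intro i j h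
        rw [hap, if_neg h]
    · intro Z hZ
      ext i j
      rw [hap]
      have h3 := congrFun (congrFun hZ.1 i) j
      rw [Matrix.add_apply, Matrix.transpose_apply, Matrix.zero_apply] at h3
      have h4 : Z j i = - Z i j := eq_neg_of_add_eq_zero_left h3
      split_ifs with h
      · rw [h4, sub_neg_eq_add, ← two_mul, ← mul_assoc, one_div,
          inv_mul_cancel₀ (two_ne_zero : (2 : K) ≠ 0), one_mul]
      · exact (hZ.2 i j h).symm
  have h2 := LinearMap.IsProj.trace h1
  rw [Grs.trace_matrix] at h2
  have h5 : ∀ i j : Fin r, altP K R (Matrix.single i j 1) i j =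
      if i ≠ j ∧ R i j then (1 / 2 : K) else 0 := by
    intro i j
    rw [hap, Matrix.single_apply_same]
    by_cases h : R i j
    · by_cases hij : i = j
      · subst hij
        rw [if_pos h, Matrix.single_apply_same, sub_self, mul_zero, if_neg (fun h => h.1 rfl)]
      · rw [if_pos h, if_pos ⟨hij, h⟩, Matrix.single_apply_of_ne, sub_zero, mul_one]
        rintro ⟨h6, _⟩
        exact hij h6
    · rw [if_neg h, if_neg (fun h' => h h'.2)]
  simp only [h5] at h2
  rw [← Finset.sum_product', Finset.univ_product_univ, ← Finset.sum_filter, Finset.sum_const,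
    nsmul_eq_mul] at h2
  have h6 : ((2 * Module.finrank K (Alt K R) : ℕ) : K) =
      (((Finset.univ.filter fun p : Fin r × Fin r => p.1 ≠ p.2 ∧ R p.1 p.2).card : ℕ) : K) := by
    rw [Nat.cast_mul, ← h2, Nat.cast_ofNat, mul_comm, mul_assoc, one_div,
      inv_mul_cancel₀ (two_ne_zero : (2 : K) ≠ 0), mul_one]
  exact_mod_cast h6

/-- multiplication on both sides -/
def mulE {A A' B B' : Matrix (Fin r) (Fin r) K} (h1 : A' * A = 1) (h2 : A * A' = 1)
    (h3 : B * B' = 1) (h4 : B' * B = 1) :
    Matrix (Fin r) (Fin r) K ≃ₗ[K] Matrix (Fin r) (Fin r) K where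
  toFun := fun Y => A * Y * B
  map_add' := fun X Y => by rw [Matrix.mul_add, Matrix.add_mul]
  map_smul' := fun c X => by rw [Matrix.mul_smul, Matrix.smul_mul, RingHom.id_apply]
  invFun := fun Z => A' * Z * B'
  left_inv := fun Y => by
    calc A' * (A * Y * B) * B' = (A' * A) * Y * (B * B') := by simp only [Matrix.mul_assoc]
      _ = Y := by rw [h1, h3, Matrix.one_mul, Matrix.mul_one]
  right_inv := fun Z => by
    calc A * (A' * Z * B') * B = (A * A') * Z * (B' * B) := by simp only [Matrix.mul_assoc]
      _ = Z := by rw [h2, h4, Matrix.one_mul, Matrix.mul_one]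

end alt

section deg

variable {K : Type} [Field K] {r : ℕ} {ψ : Matrix (Fin r) (Fin r) K}

/-- skew matrices and alternating matrices -/
theorem skew_iff (hs : ψ.transpose = ψ) (P : Matrix.GeneralLinearGroup (Fin r) K)
    (Y : Matrix (Fin r) (Fin r) K) :
    Y.transpose * ψ + ψ * Y = 0 ↔
      ((P : Matrix (Fin r) (Fin r) K).transpose * ψ * Y * (P : Matrix (Fin r) (Fin r) K)).transpose
        + (P : Matrix (Fin r) (Fin r) K).transpose * ψ * Y * (P : Matrix (Fin r) (Fin r) K)
        = 0 := by
  have h1 : (P : Matrix (Fin r) (Fin r) K) *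
      ((P⁻¹ : Matrix.GeneralLinearGroup (Fin r) K) : Matrix (Fin r) (Fin r) K) = 1 :=
    Units.mul_inv P
  have h2 : ((P⁻¹ : Matrix.GeneralLinearGroup (Fin r) K) : Matrix (Fin r) (Fin r) K).transpose *
      (P : Matrix (Fin r) (Fin r) K).transpose = 1 := by
    rw [← Matrix.transpose_mul, h1, Matrix.transpose_one]
  have h3 : ((P : Matrix (Fin r) (Fin r) K).transpose * ψ * Y *
        (P : Matrix (Fin r) (Fin r) K)).transpose
        + (P : Matrix (Fin r) (Fin r) K).transpose * ψ * Y * (P : Matrix (Fin r) (Fin r) K) =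
      (P : Matrix (Fin r) (Fin r) K).transpose * (Y.transpose * ψ + ψ * Y) *
        (P : Matrix (Fin r) (Fin r) K) := by
    rw [Matrix.transpose_mul, Matrix.transpose_mul, Matrix.transpose_mul,
      Matrix.transpose_transpose, hs, Matrix.mul_add, Matrix.add_mul]
    simp only [Matrix.mul_assoc]
  rw [h3]
  constructor
  · intro h
    rw [h, Matrix.mul_zero, Matrix.zero_mul]
  · intro h
    calc Y.transpose * ψ + ψ * Y =
        (((P⁻¹ : Matrix.GeneralLinearGroup (Fin r) K) : Matrix (Fin r) (Fin r) K).transpose *
      (P : Matrix (Fin r) (Fin r) K).transpose) * (Y.transpose * ψ + ψ * Y) *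
        ((P : Matrix (Fin r) (Fin r) K) *
      ((P⁻¹ : Matrix.GeneralLinearGroup (Fin r) K) : Matrix (Fin r) (Fin r) K)) := by
          rw [h1, h2, Matrix.one_mul, Matrix.mul_one]
      _ = ((P⁻¹ : Matrix.GeneralLinearGroup (Fin r) K) : Matrix (Fin r) (Fin r) K).transpose *
      ((P : Matrix (Fin r) (Fin r) K).transpose * (Y.transpose * ψ + ψ * Y) *
        (P : Matrix (Fin r) (Fin r) K)) *
      ((P⁻¹ : Matrix.GeneralLinearGroup (Fin r) K) : Matrix (Fin r) (Fin r) K) := by
          simp only [Matrix.mul_assoc]
      _ = 0 := by rw [h, Matrix.mul_zero, Matrix.zero_mul]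

/-- the infinitesimal isometries of degree `x` -/
theorem finrank_Deg (hψ : ψ.det ≠ 0) (hs : ψ.transpose = ψ)
    (P : Matrix.GeneralLinearGroup (Fin r) K) (s : Fin r → ℤ) (x : K)
    (hT : (dg P s).transpose * ψ + ψ * dg P s = 0) :
    Module.finrank K (Deg ψ (dg P s) x) =
      Module.finrank K (Alt K fun i j : Fin r => (s i : K) + s j + x = 0) := by
  have h1 : (P : Matrix (Fin r) (Fin r) K) *
      ((P⁻¹ : Matrix.GeneralLinearGroup (Fin r) K) : Matrix (Fin r) (Fin r) K) = 1 :=
    Units.mul_inv P
  have h1' : ((P⁻¹ : Matrix.GeneralLinearGroup (Fin r) K) : Matrix (Fin r) (Fin r) K) *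
      (P : Matrix (Fin r) (Fin r) K) = 1 := Units.inv_mul P
  have h2 : ((P⁻¹ : Matrix.GeneralLinearGroup (Fin r) K) : Matrix (Fin r) (Fin r) K).transpose *
      (P : Matrix (Fin r) (Fin r) K).transpose = 1 := by
    rw [← Matrix.transpose_mul, h1, Matrix.transpose_one]
  have h2' : (P : Matrix (Fin r) (Fin r) K).transpose *
      ((P⁻¹ : Matrix.GeneralLinearGroup (Fin r) K) : Matrix (Fin r) (Fin r) K).transpose = 1 := by
    rw [← Matrix.transpose_mul, h1', Matrix.transpose_one]
  have h3 : ψ * ψ⁻¹ = 1 := Matrix.mul_nonsing_inv ψ (Ne.isUnit hψ)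
  have h3' : ψ⁻¹ * ψ = 1 := Matrix.nonsing_inv_mul ψ (Ne.isUnit hψ)
  have hA : (ψ⁻¹ *
      ((P⁻¹ : Matrix.GeneralLinearGroup (Fin r) K) : Matrix (Fin r) (Fin r) K).transpose) *
      ((P : Matrix (Fin r) (Fin r) K).transpose * ψ) = 1 := by
    calc _ = ψ⁻¹ *
      (((P⁻¹ : Matrix.GeneralLinearGroup (Fin r) K) : Matrix (Fin r) (Fin r) K).transpose *
      (P : Matrix (Fin r) (Fin r) K).transpose) * ψ := by simp only [Matrix.mul_assoc]
      _ = 1 := by rw [h2, Matrix.mul_one, h3']
  have hA' : ((P : Matrix (Fin r) (Fin r) K).transpose * ψ) * (ψ⁻¹ *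
      ((P⁻¹ : Matrix.GeneralLinearGroup (Fin r) K) : Matrix (Fin r) (Fin r) K).transpose) = 1 := by
    calc _ = (P : Matrix (Fin r) (Fin r) K).transpose * (ψ * ψ⁻¹) *
      ((P⁻¹ : Matrix.GeneralLinearGroup (Fin r) K) : Matrix (Fin r) (Fin r) K).transpose := by
          simp only [Matrix.mul_assoc]
      _ = 1 := by rw [h3, Matrix.mul_one, h2']
  let g := mulE (K := K) hA hA' h1 h1'
  have hg : ∀ Y, g Y = (P : Matrix (Fin r) (Fin r) K).transpose * ψ * Y *
      (P : Matrix (Fin r) (Fin r) K) := fun Y => rfl
  have hTP : dg P s * (P : Matrix (Fin r) (Fin r) K) =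
      (P : Matrix (Fin r) (Fin r) K) * Matrix.diagonal (fun j => (s j : K)) := by
    unfold dg
    rw [Matrix.mul_assoc, h1', Matrix.mul_one]
  -- the action of the element of degree zero
  have key : ∀ Y : Matrix (Fin r) (Fin r) K, g (dg P s * Y - Y * dg P s - x • Y) =
      -(Matrix.diagonal (fun j => (s j : K)) * g Y + g Y * Matrix.diagonal (fun j => (s j : K))
        + x • g Y) := by
    intro Y
    have h4 : ψ * dg P s = -((dg P s).transpose * ψ) := eq_neg_of_add_eq_zero_right hT
    have h5 : g (dg P s * Y) = -(Matrix.diagonal (fun j => (s j : K)) * g Y) := by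
      rw [hg, hg]
      calc _ = (P : Matrix (Fin r) (Fin r) K).transpose * (ψ * dg P s) * Y *
          (P : Matrix (Fin r) (Fin r) K) := by simp only [Matrix.mul_assoc]
        _ = -((dg P s * (P : Matrix (Fin r) (Fin r) K)).transpose * (ψ * Y *
          (P : Matrix (Fin r) (Fin r) K))) := by
            rw [h4, Matrix.transpose_mul, Matrix.mul_neg, Matrix.neg_mul, Matrix.neg_mul]
            simp only [Matrix.mul_assoc]
        _ = _ := by
            rw [hTP, Matrix.transpose_mul, Matrix.diagonal_transpose]
            simp only [Matrix.mul_assoc]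
    have h6 : g (Y * dg P s) = g Y * Matrix.diagonal (fun j => (s j : K)) := by
      rw [hg, hg]
      calc _ = (P : Matrix (Fin r) (Fin r) K).transpose * ψ * Y *
          (dg P s * (P : Matrix (Fin r) (Fin r) K)) := by simp only [Matrix.mul_assoc]
        _ = _ := by
            rw [hTP]
            simp only [Matrix.mul_assoc]
    rw [map_sub, map_sub, map_smul, h5, h6]
    abel
  have hmem : ∀ Y : Matrix (Fin r) (Fin r) K, Y ∈ Deg ψ (dg P s) x ↔
      g Y ∈ Alt K fun i j : Fin r => (s i : K) + s j + x = 0 := by
    intro Y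
    have h4 : dg P s * Y - Y * dg P s = x • Y ↔
        ∀ i j : Fin r, ¬ ((s i : K) + s j + x = 0) → g Y i j = 0 := by
      rw [← sub_eq_zero, ← g.map_eq_zero_iff, key, neg_eq_zero]
      constructor
      · intro h5 i j hij
        have h6 := congrFun (congrFun h5 i) j
        rw [Matrix.add_apply, Matrix.add_apply, Matrix.diagonal_mul, Matrix.mul_diagonal,
          Matrix.smul_apply, smul_eq_mul, Matrix.zero_apply] at h6
        have h7 : ((s i : K) + s j + x) * g Y i j = 0 := by
          rw [← h6]
          ring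
        exact (mul_eq_zero.mp h7).resolve_left hij
      · intro h5
        ext i j
        rw [Matrix.add_apply, Matrix.add_apply, Matrix.diagonal_mul, Matrix.mul_diagonal,
          Matrix.smul_apply, smul_eq_mul, Matrix.zero_apply]
        by_cases hij : (s i : K) + s j + x = 0
        · calc _ = ((s i : K) + s j + x) * g Y i j := by ring
            _ = 0 := by rw [hij, zero_mul]
        · rw [h5 i j hij]
          ring
    constructor
    · rintro ⟨h5, h6⟩
      exact ⟨(skew_iff hs P Y).mp h5, h4.mp h6⟩
    · rintro ⟨h5, h6⟩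
      exact ⟨(skew_iff hs P Y).mpr h5, h4.mpr h6⟩
  have hmap : (Deg ψ (dg P s) x).map (g : Matrix (Fin r) (Fin r) K →ₗ[K] Matrix (Fin r) (Fin r) K)
      = Alt K fun i j : Fin r => (s i : K) + s j + x = 0 := by
    ext Z
    rw [Submodule.mem_map]
    constructor
    · rintro ⟨Y, hY, rfl⟩
      exact (hmem Y).mp hY
    · intro hZ
      refine ⟨g.symm Z, ?_, g.apply_symm_apply Z⟩
      rw [hmem, g.apply_symm_apply]
      exact hZ
  rw [← hmap]
  exact (LinearEquiv.finrank_map_eq g (Deg ψ (dg P s) x)).symm

end deg

end A91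

open A91 in
/-- DIM: dimensions for the orthogonal Lie algebras. -/
theorem st_DIM : ST_DIM := by
  classical
  intro K _ _ _ r ψ hψ hs
  refine ⟨?_, ?_, ?_⟩
  · -- the case of the trivial grading
    have h0 : dg (1 : Matrix.GeneralLinearGroup (Fin r) K) (fun _ => (0 : ℤ)) = 0 := by
      unfold dg
      have h1 : (Matrix.diagonal (fun _ : Fin r => ((0 : ℤ) : K))) = 0 := by
        rw [Int.cast_zero]
        exact Matrix.diagonal_zero
      rw [h1, Matrix.mul_zero, Matrix.zero_mul]
    have h1 := finrank_Deg hψ hs (1 : Matrix.GeneralLinearGroup (Fin r) K) (fun _ => (0 : ℤ)) 0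
      (by rw [h0, Matrix.transpose_zero, Matrix.zero_mul, Matrix.mul_zero, add_zero])
    have h2 : Grs.isoS ψ = Deg ψ (dg (1 : Matrix.GeneralLinearGroup (Fin r) K)
        (fun _ => (0 : ℤ))) 0 := by
      ext Y
      rw [h0]
      constructor
      · intro hY
        refine ⟨hY, ?_⟩
        rw [Matrix.zero_mul, Matrix.mul_zero, sub_zero, zero_smul]
      · intro hY
        exact hY.1
    rw [h2, h1, finrank_Alt]
    · have h3 : (Finset.univ.filter fun p : Fin r × Fin r => p.1 ≠ p.2 ∧
          (((0 : ℤ) : K) + ((0 : ℤ) : K) + 0 = 0)) = (Finset.univ : Finset (Fin r)).offDiag := by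
        ext p
        simp [Finset.mem_offDiag]
      rw [h3, Finset.offDiag_card, Finset.card_univ, Fintype.card_fin, Nat.mul_sub_one]
    · intro i j h
      exact h
  · intro P s i₀ j₀ hi hj h0 hT
    have h1 := finrank_Deg hψ hs P s 1 hT
    have hsym : ∀ i j : Fin r, (s i : K) + s j + 1 = 0 → (s j : K) + s i + 1 = 0 := by
      intro i j h
      rw [← h]
      ring
    have h2 := finrank_Alt (K := K) (fun i j : Fin r => (s i : K) + s j + 1 = 0) hsym
    have hij : i₀ ≠ j₀ := by
      rintro rfl
      rw [hi] at hj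
      norm_num at hj
    let B : Finset (Fin r) := (Finset.univ.erase i₀).erase j₀
    have hB : ∀ k, k ∈ B ↔ k ≠ i₀ ∧ k ≠ j₀ := by
      intro k
      simp only [B, Finset.mem_erase, Finset.mem_univ, and_true]
      exact and_comm
    have hBc : B.card + 2 = r := by
      have h3 : j₀ ∈ Finset.univ.erase i₀ := Finset.mem_erase.mpr ⟨hij.symm, Finset.mem_univ _⟩
      have h4 := Finset.card_erase_add_one h3
      have h5 := Finset.card_erase_add_one (Finset.mem_univ i₀)
      rw [Finset.card_univ, Fintype.card_fin] at h5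
      change ((Finset.univ.erase i₀).erase j₀).card + 2 = r
      omega
    have h3 : (Finset.univ.filter fun p : Fin r × Fin r => p.1 ≠ p.2 ∧
          ((s p.1 : K) + s p.2 + 1 = 0)) = ({j₀} ×ˢ B) ∪ (B ×ˢ {j₀}) := by
      ext ⟨i, j⟩
      rw [Finset.mem_filter, Finset.mem_union, Finset.mem_product, Finset.mem_product,
        Finset.mem_singleton, Finset.mem_singleton, hB, hB]
      have h4 : (s i : K) + s j + 1 = 0 ↔ s i + s j + 1 = 0 := by
        constructor
        · intro h
          exact_mod_cast h
        · intro h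
          exact_mod_cast congrArg (fun z : ℤ => (z : K)) h
      simp only [Finset.mem_univ, true_and, h4]
      constructor
      · rintro ⟨hne, hsum⟩
        by_cases hii : i = i₀
        · subst hii
          by_cases hjj : j = j₀
          · subst hjj
            rw [hi, hj] at hsum
            norm_num at hsum
          · rw [hi, h0 j (fun h => hne h.symm) hjj] at hsum
            norm_num at hsum
        · by_cases hij' : i = j₀
          · subst hij'
            left
            refine ⟨rfl, ?_, fun h => hne h.symm⟩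
            rintro rfl
            rw [hi, hj] at hsum
            norm_num at hsum
          · by_cases hjj : j = j₀
            · subst hjj
              right
              exact ⟨⟨hii, hij'⟩, rfl⟩
            · by_cases hji : j = i₀
              · subst hji
                rw [hi, h0 i hii hij'] at hsum
                norm_num at hsum
              · rw [h0 i hii hij', h0 j hji hjj] at hsum
                norm_num at hsum
      · rintro (⟨rfl, hj1, hj2⟩ | ⟨⟨hi1, hi2⟩, rfl⟩)
        · refine ⟨fun h => hj2 h.symm, ?_⟩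
          rw [hj, h0 j hj1 hj2]
          norm_num
        · refine ⟨hi2, ?_⟩
          rw [hj, h0 i hi1 hi2]
          norm_num
    have h4 : Disjoint ({j₀} ×ˢ B) (B ×ˢ {j₀}) := by
      rw [Finset.disjoint_left]
      rintro ⟨i, j⟩ h5 h6
      rw [Finset.mem_product, Finset.mem_singleton] at h5
      rw [Finset.mem_product, hB] at h6
      exact h6.1.2 h5.1
    rw [h3, Finset.card_union_of_disjoint h4, Finset.card_product, Finset.card_product,
      Finset.card_singleton] at h2
    rw [h1]
    omega
  · intro P s hs1 hT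
    have h1 := finrank_Deg hψ hs P s 2 hT
    have hsym : ∀ i j : Fin r, (s i : K) + s j + 2 = 0 → (s j : K) + s i + 2 = 0 := by
      intro i j h
      rw [← h]
      ring
    have h2 := finrank_Alt (K := K) (fun i j : Fin r => (s i : K) + s j + 2 = 0) hsym
    let B : Finset (Fin r) := Finset.univ.filter fun j => s j = -1
    have hB : ∀ k, k ∈ B ↔ s k = -1 := by
      intro k
      simp only [B, Finset.mem_filter, Finset.mem_univ, true_and]
    have h3 : (Finset.univ.filter fun p : Fin r × Fin r => p.1 ≠ p.2 ∧
          ((s p.1 : K) + s p.2 + 2 = 0)) = B.offDiag := by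
      ext ⟨i, j⟩
      rw [Finset.mem_filter, Finset.mem_offDiag, hB, hB]
      have h4 : (s i : K) + s j + 2 = 0 ↔ s i + s j + 2 = 0 := by
        constructor
        · intro h
          exact_mod_cast h
        · intro h
          exact_mod_cast congrArg (fun z : ℤ => (z : K)) h
      simp only [Finset.mem_univ, true_and, h4]
      constructor
      · rintro ⟨hne, hsum⟩
        rcases hs1 i with h5 | h5 <;> rcases hs1 j with h6 | h6 <;> rw [h5, h6] at hsum <;>
          norm_num at hsum
        exact ⟨h5, h6, hne⟩
      · rintro ⟨h5, h6, hne⟩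
        refine ⟨hne, ?_⟩
        rw [h5, h6]
        norm_num
    rw [h3, Finset.offDiag_card] at h2
    -- the trace of the element of degree zero
    have hinv : ((P⁻¹ : Matrix.GeneralLinearGroup (Fin r) K) : Matrix (Fin r) (Fin r) K) *
      (P : Matrix (Fin r) (Fin r) K) = 1 := Units.inv_mul P
    have h5 : (dg P s).trace = ∑ j, (s j : K) := by
      unfold dg
      rw [Matrix.mul_assoc, Matrix.trace_mul_comm, Matrix.mul_assoc, hinv, Matrix.mul_one,
        Matrix.trace_diagonal]
    have h6 : (dg P s).trace = 0 := by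
      have h3 : ψ * ψ⁻¹ = 1 := Matrix.mul_nonsing_inv ψ (Ne.isUnit hψ)
      have h3' : ψ⁻¹ * ψ = 1 := Matrix.nonsing_inv_mul ψ (Ne.isUnit hψ)
      have h7 : (dg P s).transpose * ψ = -(ψ * dg P s) := eq_neg_of_add_eq_zero_left hT
      have h8 : (dg P s).trace = -(dg P s).trace := by
        calc (dg P s).trace = ((dg P s).transpose * (ψ * ψ⁻¹)).trace := by
              rw [h3, Matrix.mul_one, Matrix.trace_transpose]
          _ = -(ψ * dg P s * ψ⁻¹).trace := by
              rw [← Matrix.mul_assoc, h7, Matrix.neg_mul, Matrix.trace_neg]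
          _ = -(dg P s).trace := by
              rw [Matrix.mul_assoc, Matrix.trace_mul_comm, Matrix.mul_assoc, h3', Matrix.mul_one]
      exact self_eq_neg.mp h8
    rw [h5] at h6
    have h7 : ∑ j, s j = 0 := by exact_mod_cast h6
    have h8 : ∑ j, s j = (r : ℤ) - 2 * (B.card : ℤ) := by
      have h9 : ∀ j, s j = 1 - 2 * (if s j = -1 then 1 else 0) := by
        intro j
        rcases hs1 j with h10 | h10 <;> rw [h10] <;> norm_num
      rw [Finset.sum_congr rfl fun j _ => h9 j, Finset.sum_sub_distrib, ← Finset.mul_sum,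
        Finset.sum_boole, Finset.sum_const, Finset.card_univ, Fintype.card_fin, nsmul_eq_mul,
        mul_one]
    rw [h8] at h7
    have h9 : r = 2 * B.card := by omega
    rw [h1]
    have harith : ∀ (N q R : ℕ), 2 * N = q * q - q → R = 2 * q → 8 * N = R * (R - 2) := by
      intro N q R e1 e2
      subst e2
      rcases Nat.eq_zero_or_pos q with h10 | h10
      · subst h10
        omega
      · obtain ⟨u, rfl⟩ : ∃ u, q = u + 1 := ⟨q - 1, by omega⟩
        have h11 : (u + 1) * (u + 1) - (u + 1) = (u + 1) * u := by
          rw [← Nat.mul_sub_one, Nat.add_sub_cancel]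
        rw [h11] at e1
        have h12 : 2 * (u + 1) - 2 = 2 * u := by omega
        rw [h12]
        calc 8 * N = 4 * (2 * N) := by ring
          _ = _ := by
            rw [e1]
            ring
    exact harith _ _ _ h2 h9

end EM
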