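import Pool.Agent.Helper21.EM.Stmts

/-!
# The primitive idempotents of the commutant (row PRM)
-/

set_option autoImplicit false

open Matrix MT

namespace EM

namespace A91

section frame

variable {K : Type} [Field K] {n w : ℕ} {h : Fin n → ℕ}
  {L : Submodule K (Matrix (Fin n) (Fin n) K)} {P : Matrix.GeneralLinearGroup (Fin n) K}

theorem evl_conj (P : Matrix.GeneralLinearGroup (Fin n) K) (M : Matrix (Fin n) (Fin n) K)
    (j : Fin n) :
    evl P ((P : Matrix (Fin n) (Fin n) K) * M *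
      ((P⁻¹ : Matrix.GeneralLinearGroup (Fin n) K) : Matrix (Fin n) (Fin n) K)) j = M j j := by
  have h1 : ((P⁻¹ : Matrix.GeneralLinearGroup (Fin n) K) : Matrix (Fin n) (Fin n) K) *
      (P : Matrix (Fin n) (Fin n) K) = 1 := Units.inv_mul P
  unfold evl
  rw [show ((P⁻¹ : Matrix.GeneralLinearGroup (Fin n) K) : Matrix (Fin n) (Fin n) K) *
      ((P : Matrix (Fin n) (Fin n) K) * M *
      ((P⁻¹ : Matrix.GeneralLinearGroup (Fin n) K) : Matrix (Fin n) (Fin n) K)) *
      (P : Matrix (Fin n) (Fin n) K) =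
      (((P⁻¹ : Matrix.GeneralLinearGroup (Fin n) K) : Matrix (Fin n) (Fin n) K) *
      (P : Matrix (Fin n) (Fin n) K)) * M *
      (((P⁻¹ : Matrix.GeneralLinearGroup (Fin n) K) : Matrix (Fin n) (Fin n) K) *
      (P : Matrix (Fin n) (Fin n) K)) from by simp only [Matrix.mul_assoc], h1,
    Matrix.one_mul, Matrix.mul_one]

theorem evl_smul (P : Matrix.GeneralLinearGroup (Fin n) K) (c : K) (X : Matrix (Fin n) (Fin n) K)
    (j : Fin n) : evl P (c • X) j = c * evl P X j := by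
  unfold evl
  rw [Matrix.mul_smul, Matrix.smul_mul, Matrix.smul_apply, smul_eq_mul]

theorem evl_one (P : Matrix.GeneralLinearGroup (Fin n) K) (j : Fin n) : evl P 1 j = 1 := by
  unfold evl
  rw [Matrix.mul_one, Units.inv_mul P, Matrix.one_apply_eq]

theorem evl_zero (P : Matrix.GeneralLinearGroup (Fin n) K) (j : Fin n) : evl P 0 j = 0 := by
  unfold evl
  rw [Matrix.mul_zero, Matrix.zero_mul, Matrix.zero_apply]

theorem evl_sum (P : Matrix.GeneralLinearGroup (Fin n) K)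
    (S : Finset (Matrix (Fin n) (Fin n) K)) (j : Fin n) :
    evl P (∑ ε ∈ S, ε) j = ∑ ε ∈ S, evl P ε j := by
  unfold evl
  rw [Matrix.mul_sum, Matrix.sum_mul, Matrix.sum_apply]

theorem evl_mul (hF : Frm w h L P) {X Y : Matrix (Fin n) (Fin n) K} (hX : X ∈ Cmt L)
    (hY : Y ∈ Cmt L) (j : Fin n) : evl P (X * Y) j = evl P X j * evl P Y j := by
  obtain ⟨x, hx⟩ := hF.diag X hX
  obtain ⟨y, hy⟩ := hF.diag Y hY
  have h1 : ((P⁻¹ : Matrix.GeneralLinearGroup (Fin n) K) : Matrix (Fin n) (Fin n) K) *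
      (P : Matrix (Fin n) (Fin n) K) = 1 := Units.inv_mul P
  have h2 : X * Y = (P : Matrix (Fin n) (Fin n) K) * (Matrix.diagonal x * Matrix.diagonal y) *
      ((P⁻¹ : Matrix.GeneralLinearGroup (Fin n) K) : Matrix (Fin n) (Fin n) K) := by
    rw [hx, hy]
    calc _ = (P : Matrix (Fin n) (Fin n) K) * Matrix.diagonal x *
        (((P⁻¹ : Matrix.GeneralLinearGroup (Fin n) K) : Matrix (Fin n) (Fin n) K) *
        (P : Matrix (Fin n) (Fin n) K)) * Matrix.diagonal y *
        ((P⁻¹ : Matrix.GeneralLinearGroup (Fin n) K) : Matrix (Fin n) (Fin n) K) := by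
          simp only [Matrix.mul_assoc]
      _ = _ := by
          rw [h1, Matrix.mul_one]
          simp only [Matrix.mul_assoc]
  rw [h2, evl_conj, hx, evl_conj, hy, evl_conj, Matrix.diagonal_mul_diagonal,
    Matrix.diagonal_apply_eq, Matrix.diagonal_apply_eq, Matrix.diagonal_apply_eq]

theorem evl_ext (hF : Frm w h L P) {X Y : Matrix (Fin n) (Fin n) K} (hX : X ∈ Cmt L)
    (hY : Y ∈ Cmt L) (hXY : ∀ j, evl P X j = evl P Y j) : X = Y := by
  obtain ⟨x, hx⟩ := hF.diag X hX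
  obtain ⟨y, hy⟩ := hF.diag Y hY
  have h1 : x = y := by
    funext j
    have h2 := hXY j
    rw [hx, hy, evl_conj, evl_conj, Matrix.diagonal_apply_eq, Matrix.diagonal_apply_eq] at h2
    exact h2
  rw [hx, hy, h1]

theorem one_mem_Cmt (L : Submodule K (Matrix (Fin n) (Fin n) K)) :
    (1 : Matrix (Fin n) (Fin n) K) ∈ Cmt L := fun A _ => by
  rw [Matrix.mul_one, Matrix.one_mul]

end frame

section adjoint

variable {K : Type} [Field K] {n : ℕ} {ψ : Matrix (Fin n) (Fin n) K}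

theorem adj_mul (hψ : ψ.det ≠ 0) (X Y : Matrix (Fin n) (Fin n) K) :
    adj ψ (X * Y) = adj ψ Y * adj ψ X := by
  have h1 : ψ * ψ⁻¹ = 1 := Matrix.mul_nonsing_inv ψ (Ne.isUnit hψ)
  unfold adj
  rw [Matrix.transpose_mul]
  calc _ = ψ⁻¹ * Y.transpose * 1 * X.transpose * ψ := by
          rw [Matrix.mul_one]
          simp only [Matrix.mul_assoc]
    _ = _ := by
          rw [← h1]
          simp only [Matrix.mul_assoc]

theorem adj_smul (c : K) (X : Matrix (Fin n) (Fin n) K) :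
    adj ψ (c • X) = c • adj ψ X := by
  unfold adj
  rw [Matrix.transpose_smul, Matrix.mul_smul, Matrix.smul_mul]

theorem adj_zero : adj ψ (0 : Matrix (Fin n) (Fin n) K) = 0 := by
  unfold adj
  rw [Matrix.transpose_zero, Matrix.mul_zero, Matrix.zero_mul]

theorem adj_adj {w : ℕ} (hψ : ψ.det ≠ 0) (hs : ψ.transpose = (-1 : K) ^ w • ψ)
    (X : Matrix (Fin n) (Fin n) K) : adj ψ (adj ψ X) = X := by
  have h1 : ψ * ψ⁻¹ = 1 := Matrix.mul_nonsing_inv ψ (Ne.isUnit hψ)
  have h2 : ψ⁻¹ * ψ = 1 := Matrix.nonsing_inv_mul ψ (Ne.isUnit hψ)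
  have hc : ((-1 : K) ^ w) * ((-1 : K) ^ w) = 1 := by
    rw [← mul_pow, neg_one_mul, neg_neg, one_pow]
  have h3 : ψ⁻¹ * ψ.transpose = ((-1 : K) ^ w) • (1 : Matrix (Fin n) (Fin n) K) := by
    rw [hs, Matrix.mul_smul, h2]
  have h4 : ψ = ((-1 : K) ^ w) • ψ.transpose := by
    rw [hs, smul_smul, hc, one_smul]
  have h5 : (ψ⁻¹).transpose * ψ = ((-1 : K) ^ w) • (1 : Matrix (Fin n) (Fin n) K) := by
    conv_lhs => rw [h4]
    rw [Matrix.mul_smul, ← h4, ← Matrix.transpose_mul, h1, Matrix.transpose_one]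
  unfold adj
  rw [Matrix.transpose_mul, Matrix.transpose_mul, Matrix.transpose_transpose]
  calc _ = (ψ⁻¹ * ψ.transpose) * X * ((ψ⁻¹).transpose * ψ) := by
          simp only [Matrix.mul_assoc]
    _ = X := by
          rw [h3, h5, Matrix.smul_mul, Matrix.one_mul, Matrix.mul_smul, Matrix.mul_one, smul_smul,
            hc, one_smul]

theorem adj_mem_Cmt {L : Submodule K (Matrix (Fin n) (Fin n) K)} (hψ : ψ.det ≠ 0)
    (hL : ∀ A ∈ L, A.transpose * ψ + ψ * A = 0) {X : Matrix (Fin n) (Fin n) K}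
    (hX : X ∈ Cmt L) : adj ψ X ∈ Cmt L := by
  intro A hA
  have h1 : ψ * ψ⁻¹ = 1 := Matrix.mul_nonsing_inv ψ (Ne.isUnit hψ)
  have h2 : ψ⁻¹ * ψ = 1 := Matrix.nonsing_inv_mul ψ (Ne.isUnit hψ)
  have h3 : A.transpose * ψ = -(ψ * A) := eq_neg_of_add_eq_zero_left (hL A hA)
  have h4 : A * ψ⁻¹ = -(ψ⁻¹ * A.transpose) := by
    calc A * ψ⁻¹ = ψ⁻¹ * (ψ * A) * ψ⁻¹ := by
            rw [← Matrix.mul_assoc ψ⁻¹ ψ A, h2, Matrix.one_mul]
      _ = -(ψ⁻¹ * (A.transpose * ψ) * ψ⁻¹) := by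
            rw [h3, Matrix.mul_neg, Matrix.neg_mul, neg_neg]
      _ = -(ψ⁻¹ * A.transpose * (ψ * ψ⁻¹)) := by
            simp only [Matrix.mul_assoc]
      _ = _ := by rw [h1, Matrix.mul_one]
  have h5 : A.transpose * X.transpose = X.transpose * A.transpose := by
    rw [← Matrix.transpose_mul, ← Matrix.transpose_mul, hX A hA]
  unfold adj
  calc A * (ψ⁻¹ * X.transpose * ψ) = (A * ψ⁻¹) * X.transpose * ψ := by
          simp only [Matrix.mul_assoc]
    _ = -(ψ⁻¹ * (A.transpose * X.transpose) * ψ) := by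
          rw [h4, Matrix.neg_mul, Matrix.neg_mul]
          simp only [Matrix.mul_assoc]
    _ = -(ψ⁻¹ * X.transpose * (A.transpose * ψ)) := by
          rw [h5]
          simp only [Matrix.mul_assoc]
    _ = ψ⁻¹ * X.transpose * ψ * A := by
          rw [h3, Matrix.mul_neg, neg_neg]
          simp only [Matrix.mul_assoc]

end adjoint

end A91

open A91 in
/-- PRM: the primitive idempotents. -/
theorem st_PRM (h1 : ST_IDM) : ST_PRM := by
  classical
  intro K _ _ n w h ψ L P hS hF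
  have hI := h1 K n w h L P hF
  have hp1 : ∀ k, idm L P k ∈ Prm L := fun k =>
    ⟨(hI k).1, (hI k).2.1, (hI k).2.2.1, fun X hX => ⟨evl P X k, (hI k).2.2.2.1 X hX⟩⟩
  have hp2 : ∀ ε ∈ Prm L, ∃ k, ε = idm L P k := by
    rintro ε ⟨he1, he2, he3, he4⟩
    have h2 : ∃ k, evl P ε k ≠ 0 := by
      by_contra hne
      push Not at hne
      exact he3 (evl_ext hF he1 (Cmt L).zero_mem fun j => by rw [hne j, evl_zero])
    obtain ⟨k, hk⟩ := h2
    have h3 : evl P ε k = 1 := by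
      have h4 := evl_mul hF he1 he1 k
      rw [he2] at h4
      exact mul_right_cancel₀ hk (by rw [← h4, one_mul])
    obtain ⟨c, hc⟩ := he4 (idm L P k) (hI k).1
    have h5 : idm L P k = c • ε := by
      rw [← hc, hS.comm _ (hI k).1 _ he1, (hI k).2.2.2.1 ε he1, h3, one_smul]
    have hc0 : c ≠ 0 := by
      rintro rfl
      exact (hI k).2.2.1 (by rw [h5, zero_smul])
    have h6 : c * c = c := by
      have h7 := congrArg (fun M => evl P M k) (hI k).2.1
      rw [h5, Matrix.smul_mul, Matrix.mul_smul, he2, smul_smul] at h7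
      simp only [evl_smul, h3, mul_one] at h7
      exact h7
    have h8 : c = 1 := mul_right_cancel₀ hc0 (by rw [h6, one_mul])
    refine ⟨k, ?_⟩
    rw [h5, h8, one_smul]
  have hp3 : ∀ ε ∈ Prm L, ∀ ε' ∈ Prm L, ε ≠ ε' → ε * ε' = 0 := by
    intro ε he ε' he' hne
    obtain ⟨k, rfl⟩ := hp2 ε he
    obtain ⟨k', rfl⟩ := hp2 ε' he'
    obtain ⟨h2, h3⟩ := (hI k).2.2.2.2.2.2 P hF k'
    exact h3 fun h4 => hne (h2 h4)
  refine ⟨hp1, hp2, hp3, ⟨Finset.univ.image fun k => idm L P k, ?_, ?_⟩, ?_, ?_⟩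
  · intro ε
    rw [Finset.mem_image]
    constructor
    · rintro ⟨k, _, rfl⟩
      exact hp1 k
    · intro he
      obtain ⟨k, hk⟩ := hp2 ε he
      exact ⟨k, Finset.mem_univ _, hk.symm⟩
  · apply evl_ext hF _ (one_mem_Cmt L)
    · intro j
      rw [evl_sum, evl_one, Finset.sum_eq_single (idm L P j)]
      · exact (hI j).2.2.2.2.2.1
      · intro ε he hne
        obtain ⟨k, _, rfl⟩ := Finset.mem_image.mp he
        have h2 := hp3 _ (hp1 k) _ (hp1 j) hne
        rw [(hI j).2.2.2.1 _ (hI k).1] at h2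
        exact (smul_eq_zero.mp h2).resolve_right (hI j).2.2.1
      · intro hj
        exact absurd (Finset.mem_image_of_mem _ (Finset.mem_univ j)) hj
    · refine Submodule.sum_mem _ fun ε he => ?_
      obtain ⟨k, _, rfl⟩ := Finset.mem_image.mp he
      exact (hI k).1
  · intro X hX
    exact ⟨adj_mem_Cmt hS.unit hS.iso hX, adj_adj hS.unit hS.symm X⟩
  · rintro ε ⟨he1, he2, he3, he4⟩
    refine ⟨adj_mem_Cmt hS.unit hS.iso he1, ?_, ?_, ?_⟩
    · rw [← adj_mul hS.unit, he2]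
    · intro h0
      apply he3
      rw [← adj_adj hS.unit hS.symm ε, h0, adj_zero]
    · intro X hX
      have hX' := adj_mem_Cmt hS.unit hS.iso hX
      obtain ⟨c, hc⟩ := he4 _ hX'
      refine ⟨c, ?_⟩
      calc X * adj ψ ε = adj ψ (adj ψ X) * adj ψ ε := by rw [adj_adj hS.unit hS.symm]
        _ = adj ψ (ε * adj ψ X) := by rw [adj_mul hS.unit]
        _ = adj ψ (adj ψ X * ε) := by rw [hS.comm _ he1 _ hX']
        _ = c • adj ψ ε := by rw [hc, adj_smul]

end EM
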